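import Pool.Agent.Lib.MP_64d474_lc.Sym.Logic

/-!
Definitions for the two-sided theorem on the approximation of the commutative rank in counting
logic: values of symbolic matrices, boundedness, the matrices of a pair of permutations, disjoint
copies.
-/

namespace Pool.Agent.Lib.MP_64d474_lc.Tw

open Pool.Agent.Lib.MP_64d474_lc.Sym

/-- The value at the real point `x` of the symbolic matrix with coefficients `a`. -/
def value {I J X : Type} [Fintype X] (a : I → J → X → ℤ) (x : X → ℝ) : Matrix I J ℝ :=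
  fun i j => ∑ l, (a i j l : ℝ) * x l

/-- In every row and in every column the absolute values of all coefficients add up to at most
`K`. -/
def Bounded {I J X : Type} [Fintype I] [Fintype J] [Fintype X] (K : ℕ) (a : I → J → X → ℤ) :
    Prop :=
  (∀ i, ∑ j, ∑ l, |a i j l| ≤ K) ∧ (∀ j, ∑ i, ∑ l, |a i j l| ≤ K)

/-- The same formulas with `k` variables hold under all assignments. -/
def SameForm {R C X R' C' X' : Type} (k : ℕ) (a : R → C → X → ℤ) (b : R' → C' → X' → ℤ) : Prop :=
  ∀ φ : CForm k, (∀ v, Holds a φ v) ↔ (∀ w, Holds b φ w)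

section Graph

variable {V : Type} [DecidableEq V] (σ : Bool → Equiv.Perm V)

/-- Sign of the variable kind `x` in rows of direction `d`. -/
def sg (d x : Bool) : ℤ := if d = false ∧ x = true then -1 else 1

/-- Coefficient of the variable `x` in the entry (row `r`, column `c`) of the matrix of the two
permutations `σ false`, `σ true` with link signs `s`. -/
def base (s : Bool × V → ℤˣ) (r c x : Bool × V) : ℤ :=
  if c.2 = x.2 then
    (if r.2 = c.2 ∧ xor c.1 x.1 = false then sg r.1 x.1 else 0) +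
    (if r.2 = σ r.1 c.2 ∧ xor c.1 x.1 = true then (s r : ℤ) * sg r.1 x.1 else 0)
  else 0

/-- Coefficients of the doubled matrix. -/
def dbl (s : Bool × V → ℤˣ) (r c x : (Bool × V) × ℤˣ) : ℤ :=
  ((r.2 * c.2 * x.2 : ℤˣ) : ℤ) * base σ s r.1 c.1 x.1 +
    if r.1.2 = c.1.2 ∧ c.1.2 = x.1.2 ∧ xor c.1.1 x.1.1 = r.1.1 then 1 else 0

/-- Links (the link `(d, m)` joins the nodes `(σ d).symm m` and `m`) and nodes. -/
abbrev Site (V : Type) : Type := (Bool × V) ⊕ V

/-- Two nodes outside `P` are joined by a link outside `P`. -/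
def Step (P : Finset (Site V)) (m n : V) : Prop :=
  Sum.inr m ∉ P ∧ Sum.inr n ∉ P ∧
    ∃ d, (n = σ d m ∧ Sum.inl (d, n) ∉ P) ∨ (m = σ d n ∧ Sum.inl (d, m) ∉ P)

/-- After the removal of at most `k` sites more than half of the nodes are still connected with
each other. -/
def Robust [Fintype V] (k : ℕ) : Prop :=
  ∀ P : Finset (Site V), P.card ≤ k → ∃ C : Finset V, Fintype.card V < 2 * C.card ∧
    (∀ n ∈ C, Sum.inr n ∉ P) ∧ ∀ m ∈ C, ∀ n ∈ C, Relation.ReflTransGen (Step σ P) m n

end Graph

/-- `N` disjoint copies. -/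
def copies {R C X : Type} (N : ℕ) (a : R → C → X → ℤ) (r : R × Fin N) (c : C × Fin N)
    (x : X × Fin N) : ℤ :=
  if r.2 = c.2 ∧ c.2 = x.2 then a r.1 c.1 x.1 else 0

end Pool.Agent.Lib.MP_64d474_lc.Tw
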